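import Mathlib

/-!
# Numerical bounds for the hat game with short stacks
-/

set_option autoImplicit false

open Finset Real

namespace Pool.Agent.ShortStacks

/-- the terms of the binomial expansion of `(j + (k - j)) ^ k` -/
private def tm (k j i : ℕ) : ℕ := j ^ i * (k - j) ^ (k - i) * k.choose i

private theorem tm_succ {k j i : ℕ} (hi : i < k) :
    tm k j (i + 1) * ((i + 1) * (k - j)) = tm k j i * ((k - i) * j) := by
  unfold tm
  have h1 := Nat.choose_succ_right_eq k i
  have h2 : k - i = (k - (i + 1)) + 1 := by omega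
  have h3 : (k - j) ^ (k - i) = (k - j) ^ (k - (i + 1)) * (k - j) := by
    rw [h2, pow_succ]
  rw [h3]
  calc j ^ (i + 1) * (k - j) ^ (k - (i + 1)) * k.choose (i + 1) * ((i + 1) * (k - j))
      = j ^ i * j * (k - j) ^ (k - (i + 1)) * (k - j) * (k.choose (i + 1) * (i + 1)) := by ring
    _ = j ^ i * j * (k - j) ^ (k - (i + 1)) * (k - j) * (k.choose i * (k - i)) := by rw [h1]
    _ = _ := by ring

private theorem tm_le {k j : ℕ} (hj : j < k) {i : ℕ} (hi : i ≤ k) : tm k j i ≤ tm k j j := by
  have hkj : 0 < k - j := by omega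
  rcases le_total i j with h | h
  · -- below `j`
    have hstep : ∀ d, d ≤ j → tm k j (j - d) ≤ tm k j j := by
      intro d
      induction d with
      | zero => intro _; simp
      | succ d ih =>
        intro hd
        refine le_trans ?_ (ih (by omega))
        set a := j - (d + 1) with ha
        have h1 : j - d = a + 1 := by omega
        rw [h1]
        have h2 := tm_succ (k := k) (j := j) (i := a) (by omega)
        have h3 : (a + 1) * (k - j) ≤ (k - a) * j := by
          have h4 : a + 1 ≤ j := by omega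
          have h5 : k - j ≤ k - a := by omega
          calc (a + 1) * (k - j) ≤ j * (k - a) := Nat.mul_le_mul h4 h5
            _ = _ := Nat.mul_comm _ _
        refine Nat.le_of_mul_le_mul_right ?_ (Nat.mul_pos (Nat.succ_pos a) hkj)
        rw [h2]
        exact Nat.mul_le_mul_left _ h3
    have := hstep (j - i) (by omega)
    rwa [Nat.sub_sub_self h] at this
  · have hstep : ∀ d, j + d ≤ k → tm k j (j + d) ≤ tm k j j := by
      intro d
      induction d with
      | zero => intro _; simp
      | succ d ih =>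
        intro hd
        refine le_trans ?_ (ih (by omega))
        have h2 := tm_succ (k := k) (j := j) (i := j + d) (by omega)
        have h3 : (k - (j + d)) * j ≤ (j + d + 1) * (k - j) := by
          have h4 : j ≤ j + d + 1 := by omega
          have h5 : k - (j + d) ≤ k - j := by omega
          calc (k - (j + d)) * j ≤ (k - j) * (j + d + 1) := Nat.mul_le_mul h5 h4
            _ = _ := Nat.mul_comm _ _
        refine Nat.le_of_mul_le_mul_right ?_ (Nat.mul_pos (Nat.succ_pos (j + d)) hkj)
        rw [← add_assoc, h2]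
        exact Nat.mul_le_mul_left _ h3
    have := hstep (i - j) (by omega)
    rwa [Nat.add_sub_cancel' h] at this

theorem pow_le_entropy {k j : ℕ} (hj : j < k) :
    k ^ k ≤ (k + 1) * (j ^ j * (k - j) ^ (k - j) * k.choose j) := by
  have h1 := add_pow j (k - j) k
  rw [Nat.add_sub_cancel' hj.le] at h1
  rw [h1]
  have h2 : ∀ i ∈ range (k + 1), j ^ i * (k - j) ^ (k - i) * k.choose i ≤
      j ^ j * (k - j) ^ (k - j) * k.choose j := by
    intro i hi
    exact tm_le hj (Nat.lt_succ_iff.1 (Finset.mem_range.1 hi))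
  refine (Finset.sum_le_sum h2).trans (le_of_eq ?_)
  rw [Finset.sum_const, Finset.card_range, smul_eq_mul]

/-- binomial coefficients and entropy -/
theorem entropy_le {k j : ℕ} (hj : j < k) :
    k * binEntropy (j / k) ≤ log (k + 1) + log (k.choose j) := by
  have hk : (0 : ℝ) < k := by exact_mod_cast (by omega : 0 < k)
  have hkj : (0 : ℝ) < k - j := by
    have : (j : ℝ) < k := by exact_mod_cast hj
    linarith
  have hch : (0 : ℝ) < k.choose j := by exact_mod_cast Nat.choose_pos hj.le
  have h1 : (k : ℝ) ^ k ≤ (k + 1) * ((j : ℝ) ^ j * (k - j) ^ (k - j) * k.choose j) := by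
    have := pow_le_entropy hj
    have h2 : ((k ^ k : ℕ) : ℝ) ≤ (((k + 1) * (j ^ j * (k - j) ^ (k - j) * k.choose j) : ℕ) : ℝ) := by
      exact_mod_cast this
    push_cast [Nat.cast_sub hj.le] at h2
    exact h2
  have hjj : (0 : ℝ) < (j : ℝ) ^ j := by
    rcases Nat.eq_zero_or_pos j with h | h
    · subst h; simp
    · have : (0 : ℝ) < j := by exact_mod_cast h
      positivity
  have h2 := Real.log_le_log (by positivity) h1
  rw [Real.log_mul (by positivity) (by positivity), Real.log_mul (by positivity) hch.ne',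
    Real.log_mul hjj.ne' (by positivity), Real.log_pow, Real.log_pow, Real.log_pow] at h2
  have h3 : k * binEntropy (j / k) = k * log k - j * log j - ((k - j : ℕ) : ℝ) * log (k - j) := by
    rw [Nat.cast_sub hj.le]
    have h4 : 1 - (j : ℝ) / k = (k - j) / k := by field_simp
    rw [binEntropy, h4, inv_div, inv_div, Real.log_div hk.ne' hkj.ne']
    rcases Nat.eq_zero_or_pos j with h | h
    · subst h
      simp
    · have h5 : (0 : ℝ) < j := by exact_mod_cast h
      rw [Real.log_div hk.ne' h5.ne']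
      field_simp
      ring
  rw [h3]
  linarith

/-- the bound of the theorem -/
noncomputable def bd (m k j : ℕ) : ℝ :=
  (j : ℝ) / k + (1 - (∑ i ∈ range (j + 1), (k.choose i : ℝ)) / 2 ^ k) ^ m

theorem vol_le {k j : ℕ} (hj : j ≤ k) :
    (∑ i ∈ range (j + 1), (k.choose i : ℝ)) ≤ 2 ^ k := by
  have h1 : (∑ i ∈ range (k + 1), (k.choose i : ℝ)) = 2 ^ k := by
    have := Nat.sum_range_choose k
    exact_mod_cast this
  rw [← h1]
  refine Finset.sum_le_sum_of_subset_of_nonneg ?_ fun i _ _ => by positivity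
  exact Finset.range_mono (by omega)

theorem bd_le_exp {m k j : ℕ} (hj : j ≤ k) {v : ℝ}
    (hv : v ≤ ∑ i ∈ range (j + 1), (k.choose i : ℝ)) :
    bd m k j ≤ j / k + exp (-(m * v / 2 ^ k)) := by
  unfold bd
  have h0 := vol_le hj
  have h1 : 0 ≤ 1 - (∑ i ∈ range (j + 1), (k.choose i : ℝ)) / 2 ^ k := by
    rw [sub_nonneg, div_le_one (by positivity)]
    exact h0
  have h2 : 1 - (∑ i ∈ range (j + 1), (k.choose i : ℝ)) / 2 ^ k ≤ exp (-(v / 2 ^ k)) := by
    have h3 := Real.add_one_le_exp (-(v / 2 ^ k))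
    have h4 : v / 2 ^ k ≤ (∑ i ∈ range (j + 1), (k.choose i : ℝ)) / 2 ^ k := by gcongr
    linarith
  have h5 : (1 - (∑ i ∈ range (j + 1), (k.choose i : ℝ)) / 2 ^ k) ^ m ≤
      exp (-(m * v / 2 ^ k)) := by
    refine (pow_le_pow_left₀ h1 h2 m).trans (le_of_eq ?_)
    rw [← Real.exp_nat_mul]
    congr 1
    ring
  linarith

/-- the entropy form -/
theorem bd_entropy {C β : ℝ} (hC : 0 < C) (hβ : 0 < β) (hβ1 : β ≤ 1 / 2)
    (h : (1 - 1 / C) * log 2 < binEntropy β) :
    ∃ n₀ : ℕ, ∀ n k : ℕ, n₀ ≤ n → 1 ≤ k → (k : ℝ) * log 2 ≤ C * log n →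
      ∃ j, j ≤ k ∧ bd n k j ≤ β := by
  -- a slightly smaller density
  obtain ⟨b, hb0, hb1, hb⟩ : ∃ b, 0 < b ∧ b < β ∧ (1 - 1 / C) * log 2 < binEntropy b := by
    have h1 : ∀ᶠ b in nhdsWithin β (Set.Iio β), (1 - 1 / C) * log 2 < binEntropy b :=
      (binEntropy_continuous.continuousAt.eventually_const_lt h).filter_mono nhdsWithin_le_nhds
    have h2 : ∀ᶠ b in nhdsWithin β (Set.Iio β), 0 < b :=
      (eventually_gt_nhds hβ).filter_mono nhdsWithin_le_nhds
    have h3 : ∀ᶠ b in nhdsWithin β (Set.Iio β), b < β := self_mem_nhdsWithin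
    obtain ⟨b, h⟩ := (h1.and (h2.and h3)).exists
    exact ⟨b, h.2.1, h.2.2, h.1⟩
  set η : ℝ := (binEntropy b - (1 - 1 / C) * log 2) / 2 with hη
  have hη0 : 0 < η := by rw [hη]; linarith
  -- the entropy of the rounded density
  have ht : Filter.Tendsto (fun k : ℕ => (⌊b * k⌋₊ : ℝ) / k) Filter.atTop (nhds b) :=
    (tendsto_nat_floor_mul_div_atTop hb0.le).comp tendsto_natCast_atTop_atTop
  have ht2 : ∀ᶠ k : ℕ in Filter.atTop,
      (1 - 1 / C) * log 2 + η < binEntropy ((⌊b * k⌋₊ : ℝ) / k) := by
    refine (binEntropy_continuous.continuousAt.tendsto.comp ht).eventually_const_lt ?_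
    rw [hη]; linarith
  have ht3 : Filter.Tendsto (fun k : ℕ => exp (-(exp (η * k) / (k + 1)))) Filter.atTop (nhds 0) := by
    refine Real.tendsto_exp_neg_atTop_nhds_zero.comp ?_
    have h1 : Filter.Tendsto (fun x : ℝ => exp (η * x) / (x + 1)) Filter.atTop Filter.atTop := by
      have h2 : ∀ x : ℝ, 1 ≤ x → η ^ 2 / 8 * x ≤ exp (η * x) / (x + 1) := by
        intro x hx
        have h3 : (1 + η * x / 2) ^ 2 ≤ exp (η * x) := by
          have h4 := Real.add_one_le_exp (η * x / 2)
          have h5 : exp (η * x) = exp (η * x / 2) ^ 2 := by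
            rw [← Real.exp_nat_mul]
            congr 1
            push_cast
            ring
          rw [h5]
          exact pow_le_pow_left₀ (by positivity) (by linarith) 2
        rw [le_div_iff₀ (by linarith)]
        have h6 : 0 < η * x := by positivity
        nlinarith [mul_le_mul_of_nonneg_left hx (by positivity : 0 ≤ η ^ 2 * x)]
      refine Filter.tendsto_atTop_mono' _ ((Filter.eventually_ge_atTop 1).mono h2) ?_
      exact Filter.tendsto_id.const_mul_atTop (by positivity)
    exact h1.comp tendsto_natCast_atTop_atTop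
  have ht4 : ∀ᶠ k : ℕ in Filter.atTop, exp (-(exp (η * k) / (k + 1))) < β - b :=
    ht3.eventually_lt_const (by linarith)
  obtain ⟨k₁, hk₁⟩ := Filter.eventually_atTop.1 (ht2.and ht4)
  -- the case of very short stacks
  have ht5 : Filter.Tendsto (fun n : ℕ => exp (-((n : ℝ) / 2 ^ k₁))) Filter.atTop (nhds 0) := by
    refine Real.tendsto_exp_neg_atTop_nhds_zero.comp ?_
    exact tendsto_natCast_atTop_atTop.atTop_div_const (by positivity)
  obtain ⟨n₀, hn₀⟩ := Filter.eventually_atTop.1 (ht5.eventually_lt_const hβ)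
  refine ⟨max n₀ 1, ?_⟩
  intro n k hn hk hkn
  have hn1 : n₀ ≤ n := le_trans (le_max_left _ _) hn
  have hn2 : (0 : ℝ) < n := by exact_mod_cast lt_of_lt_of_le Nat.one_pos (le_trans (le_max_right _ _) hn)
  have hk0 : (0 : ℝ) < k := by exact_mod_cast hk
  rcases lt_or_ge k k₁ with hkk | hkk
  · refine ⟨0, Nat.zero_le _, ?_⟩
    have h1 := bd_le_exp (m := n) (k := k) (j := 0) (Nat.zero_le _) (v := 1) (by simp)
    refine h1.trans ?_
    have h2 := (hn₀ n hn1).le
    refine le_trans ?_ h2
    rw [Nat.cast_zero, zero_div, zero_add, mul_one]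
    apply Real.exp_le_exp.2
    rw [neg_le_neg_iff]
    have : (2 : ℝ) ^ k ≤ 2 ^ k₁ := pow_le_pow_right₀ (by norm_num) hkk.le
    gcongr
  · obtain ⟨h1, h2⟩ := hk₁ k hkk
    have hjk : ⌊b * k⌋₊ < k := by
      rw [Nat.floor_lt (by positivity)]
      nlinarith
    refine ⟨⌊b * k⌋₊, hjk.le, ?_⟩
    have h3 := bd_le_exp (m := n) (k := k) (j := ⌊b * k⌋₊) hjk.le
      (v := (k.choose ⌊b * k⌋₊ : ℝ))
      (Finset.single_le_sum (f := fun i => (k.choose i : ℝ)) (fun i _ => by positivity)
        (Finset.mem_range.2 (Nat.lt_succ_self _)))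
    refine h3.trans ?_
    have hv : (0 : ℝ) < k.choose ⌊b * k⌋₊ := by exact_mod_cast Nat.choose_pos hjk.le
    have h4 : exp (η * k) / (k + 1) ≤ n * (k.choose ⌊b * k⌋₊ : ℝ) / 2 ^ k := by
      have h5 := entropy_le hjk
      have h6 : k * ((1 - 1 / C) * log 2 + η) ≤ k * binEntropy ((⌊b * k⌋₊ : ℝ) / k) :=
        mul_le_mul_of_nonneg_left h1.le hk0.le
      have h7 : k * log 2 * (1 / C) ≤ log n := by
        rw [mul_one_div, div_le_iff₀ hC]
        linarith
      have h8 : log (exp (η * k) / (k + 1)) ≤ log (n * (k.choose ⌊b * k⌋₊ : ℝ) / 2 ^ k) := by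
        rw [Real.log_div (by positivity) (by positivity), Real.log_exp,
          Real.log_div (by positivity) (by positivity), Real.log_mul hn2.ne' hv.ne', Real.log_pow]
        have h9 : k * ((1 - 1 / C) * log 2 + η) = k * log 2 - k * log 2 * (1 / C) + η * k := by
          ring
        linarith
      exact (Real.log_le_log_iff (by positivity) (by positivity)).1 h8
    have h5 : (⌊b * k⌋₊ : ℝ) / k ≤ b := by
      rw [div_le_iff₀ hk0]
      exact Nat.floor_le (by positivity)
    have h6 : exp (-(n * (k.choose ⌊b * k⌋₊ : ℝ) / 2 ^ k)) ≤ exp (-(exp (η * k) / (k + 1))) :=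
      Real.exp_le_exp.2 (by linarith)
    linarith

/-- the bound near the critical height -/
theorem bd_log (A : ℕ) : ∃ C : ℝ, ∀ n k : ℕ, 2 ≤ n → 1 ≤ k → (2 : ℝ) ^ k ≤ n * log n ^ A →
    ∃ j, j ≤ k ∧ min 1 (bd n k j) ≤ C / log n := by
  set j : ℕ := A + 1 with hj
  refine ⟨2 + 4 * j + 4 ^ j * j.factorial, ?_⟩
  intro n k hn hk hkn
  have hn0 : (0 : ℝ) < n := by exact_mod_cast (by omega : 0 < n)
  have hL : 0 < log n := Real.log_pos (by exact_mod_cast hn)
  have hk0 : (0 : ℝ) < k := by exact_mod_cast hk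
  have hjf : (1 : ℝ) ≤ j.factorial := by exact_mod_cast Nat.one_le_iff_ne_zero.2 (Nat.factorial_ne_zero j)
  have hj1 : (1 : ℝ) ≤ j := by rw [hj]; push_cast; linarith [(Nat.cast_nonneg A : (0 : ℝ) ≤ A)]
  have hexp : ∀ x : ℝ, 0 < x → exp (-x) ≤ 1 / x := by
    intro x hx
    rw [Real.exp_neg, inv_eq_one_div]
    apply one_div_le_one_div_of_le hx
    linarith [Real.add_one_le_exp x]
  have hlogn : log n ≤ 2 * √n := by
    have h1 := Real.log_le_sub_one_of_pos (Real.sqrt_pos.2 hn0)
    rw [Real.log_sqrt hn0.le] at h1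
    linarith
  rcases le_or_gt ((2 : ℝ) ^ k) (√n) with h2 | h2
  · -- very short stacks
    refine ⟨0, Nat.zero_le _, (min_le_right _ _).trans ?_⟩
    have h1 := bd_le_exp (m := n) (k := k) (j := 0) (Nat.zero_le _) (v := 1) (by simp)
    refine h1.trans ?_
    rw [Nat.cast_zero, zero_div, zero_add, mul_one]
    refine (hexp _ (by positivity)).trans ?_
    rw [one_div_div]
    calc (2 : ℝ) ^ k / n ≤ √n / n := by gcongr
      _ = 1 / √n := by rw [Real.sqrt_div_self, one_div]
      _ ≤ 2 / log n := by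
        rw [div_le_div_iff₀ (Real.sqrt_pos.2 hn0) hL]
        linarith
      _ ≤ _ := by gcongr; nlinarith [pow_pos (by norm_num : (0 : ℝ) < 4) j]
  · have hklow : log n ≤ 2 * k := by
      have h3 := Real.log_le_log (Real.sqrt_pos.2 hn0) h2.le
      rw [Real.log_sqrt hn0.le, Real.log_pow] at h3
      have h4 : log 2 ≤ 1 := by linarith [Real.log_two_lt_d9]
      nlinarith
    rcases lt_or_ge k (2 * j) with hkj | hkj
    · refine ⟨0, Nat.zero_le _, (min_le_left _ _).trans ?_⟩
      rw [le_div_iff₀ hL, one_mul]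
      have h3 : (k : ℝ) < 2 * j := by exact_mod_cast hkj
      have h4 : (0 : ℝ) < 4 ^ j * j.factorial := by positivity
      linarith
    · refine ⟨j, by omega, (min_le_right _ _).trans ?_⟩
      have hkj' : (2 * j : ℝ) ≤ k := by exact_mod_cast hkj
      have h1 := bd_le_exp (m := n) (k := k) (j := j) (by omega)
        (v := ((k : ℝ) / 2) ^ j / j.factorial) (by
          refine le_trans ?_ (Finset.single_le_sum (f := fun i => (k.choose i : ℝ))
            (fun i _ => by positivity) (Finset.mem_range.2 (Nat.lt_succ_self j)))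
          refine le_trans ?_ (Nat.pow_le_choose j k)
          have h3 : ((k + 1 - j : ℕ) : ℝ) = k + 1 - j := by
            rw [Nat.cast_sub (by omega)]; push_cast; ring
          rw [h3]
          gcongr
          linarith)
      refine h1.trans ?_
      have h3 : log n / (4 ^ j * j.factorial) ≤
          n * (((k : ℝ) / 2) ^ j / j.factorial) / 2 ^ k := by
        rw [le_div_iff₀ (by positivity)]
        calc log n / (4 ^ j * j.factorial) * 2 ^ k
            ≤ log n / (4 ^ j * j.factorial) * (n * log n ^ A) := by gcongr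
          _ = n * ((log n / 4) ^ j / j.factorial) := by
              rw [div_pow, hj, pow_succ (log (n : ℝ))]
              field_simp
          _ ≤ n * (((k : ℝ) / 2) ^ j / j.factorial) := by
              gcongr n * (?_ ^ j / _)
              linarith
      have h4 : exp (-(n * (((k : ℝ) / 2) ^ j / j.factorial) / 2 ^ k)) ≤
          4 ^ j * j.factorial / log n := by
        refine (Real.exp_le_exp.2 (neg_le_neg h3)).trans ?_
        refine (hexp _ (by positivity)).trans ?_
        rw [one_div_div]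
      have h5 : (j : ℝ) / k ≤ 2 * j / log n := by
        rw [div_le_div_iff₀ hk0 hL]
        nlinarith
      calc (j : ℝ) / k + exp (-(n * (((k : ℝ) / 2) ^ j / j.factorial) / 2 ^ k))
          ≤ 2 * j / log n + 4 ^ j * j.factorial / log n := add_le_add h5 h4
        _ = (2 * j + 4 ^ j * j.factorial) / log n := by ring
        _ ≤ _ := by gcongr; linarith

end Pool.Agent.ShortStacks
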