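import Mathlib

/-!
# Levine's hat game with short stacks
-/

set_option autoImplicit false

open Finset

namespace Pool.Agent.ShortStacks

/-- number of black hats in `H` -/
def blk {K : ℕ} (H : Finset (Fin K)) (z : Fin K → Bool) : ℕ := (H.filter fun a => z a = true).card

/-- a player with at most `j` black hats among the `k` hats of `H` has a black one at a given place
of `H` with probability at most `j / k` -/
theorem share {K : ℕ} (H : Finset (Fin K)) (j : ℕ) {l : Fin K} (hl : l ∈ H) :
    H.card * (univ.filter fun z : Fin K → Bool => blk H z ≤ j ∧ z l = true).card ≤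
      j * (univ.filter fun z : Fin K → Bool => blk H z ≤ j).card := by
  classical
  have hsym : ∀ l' ∈ H, (univ.filter fun z : Fin K → Bool => blk H z ≤ j ∧ z l' = true).card =
      (univ.filter fun z : Fin K → Bool => blk H z ≤ j ∧ z l = true).card := by
    intro l' hl'
    have hb : ∀ z : Fin K → Bool, blk H (fun a => z (Equiv.swap l l' a)) = blk H z := by
      intro z
      unfold blk
      refine Finset.card_bij' (fun a _ => Equiv.swap l l' a) (fun a _ => Equiv.swap l l' a)
        ?_ ?_ ?_ ?_
      · intro a ha
        rw [Finset.mem_filter] at ha ⊢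
        refine ⟨?_, ha.2⟩
        by_cases h1 : a = l
        · rw [h1, Equiv.swap_apply_left]; exact hl'
        · by_cases h2 : a = l'
          · rw [h2, Equiv.swap_apply_right]; exact hl
          · rw [Equiv.swap_apply_of_ne_of_ne h1 h2]; exact ha.1
      · intro a ha
        rw [Finset.mem_filter] at ha ⊢
        refine ⟨?_, by change z (Equiv.swap l l' (Equiv.swap l l' a)) = true; rw [Equiv.swap_apply_self]; exact ha.2⟩
        by_cases h1 : a = l
        · rw [h1, Equiv.swap_apply_left]; exact hl'
        · by_cases h2 : a = l'
          · rw [h2, Equiv.swap_apply_right]; exact hl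
          · rw [Equiv.swap_apply_of_ne_of_ne h1 h2]; exact ha.1
      · intro a _
        exact Equiv.swap_apply_self l l' a
      · intro a _
        exact Equiv.swap_apply_self l l' a
    refine Finset.card_bij' (fun z _ => fun a => z (Equiv.swap l l' a))
      (fun z _ => fun a => z (Equiv.swap l l' a)) ?_ ?_ ?_ ?_
    · intro z hz
      rw [Finset.mem_filter] at hz ⊢
      refine ⟨Finset.mem_univ _, by rw [hb]; exact hz.2.1, ?_⟩
      change z (Equiv.swap l l' l) = true
      rw [Equiv.swap_apply_left]; exact hz.2.2
    · intro z hz
      rw [Finset.mem_filter] at hz ⊢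
      refine ⟨Finset.mem_univ _, by rw [hb]; exact hz.2.1, ?_⟩
      change z (Equiv.swap l l' l') = true
      rw [Equiv.swap_apply_right]; exact hz.2.2
    · intro z _
      funext a
      simp
    · intro z _
      funext a
      simp
  have h1 : H.card * (univ.filter fun z : Fin K → Bool => blk H z ≤ j ∧ z l = true).card =
      ∑ l' ∈ H, (univ.filter fun z : Fin K → Bool => blk H z ≤ j ∧ z l' = true).card := by
    rw [Finset.sum_congr rfl hsym, Finset.sum_const, smul_eq_mul]
  have h2 : ∑ l' ∈ H, (univ.filter fun z : Fin K → Bool => blk H z ≤ j ∧ z l' = true).card =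
      ∑ z ∈ univ.filter (fun z : Fin K → Bool => blk H z ≤ j), blk H z := by
    have h3 : ∀ l' ∈ H, (univ.filter fun z : Fin K → Bool => blk H z ≤ j ∧ z l' = true).card =
        ∑ z ∈ univ.filter (fun z : Fin K → Bool => blk H z ≤ j), if z l' = true then 1 else 0 := by
      intro l' _
      rw [← Finset.filter_filter, Finset.card_filter]
    rw [Finset.sum_congr rfl h3, Finset.sum_comm]
    refine Finset.sum_congr rfl fun z _ => ?_
    rw [blk, Finset.card_filter]
  rw [h1, h2, mul_comm, ← smul_eq_mul, ← Finset.sum_const]
  exact Finset.sum_le_sum fun z hz => (Finset.mem_filter.1 hz).2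

/-- number of positions of the stack with at most `j` black hats in `H` -/
theorem card_ball {K : ℕ} (H : Finset (Fin K)) (j : ℕ) :
    2 ^ H.card * (univ.filter fun z : Fin K → Bool => blk H z ≤ j).card =
      2 ^ K * ∑ i ∈ range (j + 1), H.card.choose i := by
  classical
  have h1 : (univ.filter fun z : Fin K → Bool => blk H z ≤ j).card =
      ((H.powerset.filter fun A => A.card ≤ j) ×ˢ (Hᶜ).powerset).card := by
    refine Finset.card_bij'
      (fun z _ => (H.filter fun a => z a = true, (Hᶜ).filter fun a => z a = true))
      (fun A _ => fun a => decide (a ∈ A.1 ∪ A.2)) ?_ ?_ ?_ ?_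
    · intro z hz
      rw [Finset.mem_filter] at hz
      rw [Finset.mem_product, Finset.mem_filter, Finset.mem_powerset, Finset.mem_powerset]
      exact ⟨⟨Finset.filter_subset _ _, hz.2⟩, Finset.filter_subset _ _⟩
    · intro A hA
      rw [Finset.mem_product, Finset.mem_filter, Finset.mem_powerset, Finset.mem_powerset] at hA
      rw [Finset.mem_filter]
      refine ⟨Finset.mem_univ _, ?_⟩
      have h2 : (H.filter fun a => decide (a ∈ A.1 ∪ A.2) = true) = A.1 := by
        ext a
        simp only [Finset.mem_filter, decide_eq_true_eq, Finset.mem_union]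
        constructor
        · rintro ⟨h, h' | h'⟩
          · exact h'
          · exact absurd h (Finset.mem_compl.1 (hA.2 h'))
        · intro h
          exact ⟨hA.1.1 h, Or.inl h⟩
      rw [blk, h2]
      exact hA.1.2
    · intro z _
      funext a
      simp only [Finset.mem_union, Finset.mem_filter, Finset.mem_compl]
      by_cases h : a ∈ H <;> cases hz : z a <;> simp [h]
    · intro A hA
      rw [Finset.mem_product, Finset.mem_filter, Finset.mem_powerset, Finset.mem_powerset] at hA
      refine Prod.ext ?_ ?_
      · ext a
        simp only [Finset.mem_filter, decide_eq_true_eq, Finset.mem_union]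
        constructor
        · rintro ⟨h, h' | h'⟩
          · exact h'
          · exact absurd h (Finset.mem_compl.1 (hA.2 h'))
        · intro h
          exact ⟨hA.1.1 h, Or.inl h⟩
      · ext a
        simp only [Finset.mem_filter, decide_eq_true_eq, Finset.mem_union]
        constructor
        · rintro ⟨h, h' | h'⟩
          · exact absurd (hA.1.1 h') (Finset.mem_compl.1 h)
          · exact h'
        · intro h
          exact ⟨hA.2 h, Or.inr h⟩
  have h2 : (H.powerset.filter fun A => A.card ≤ j).card = ∑ i ∈ range (j + 1), H.card.choose i := by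
    rw [Finset.card_eq_sum_card_fiberwise (f := fun A : Finset (Fin K) => A.card)
      (t := range (j + 1))]
    · refine Finset.sum_congr rfl fun i hi => ?_
      rw [← Finset.card_powersetCard]
      congr 1
      ext A
      rw [Finset.mem_filter, Finset.mem_filter, Finset.mem_powerset, Finset.mem_powersetCard]
      constructor
      · rintro ⟨⟨h, _⟩, h'⟩
        exact ⟨h, h'⟩
      · rintro ⟨h, h'⟩
        refine ⟨⟨h, ?_⟩, h'⟩
        rw [h']
        exact Nat.lt_succ_iff.1 (Finset.mem_range.1 hi)
    · intro A hA
      simp only [Finset.coe_filter, Set.mem_ofPred_eq] at hA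
      simp only [Finset.coe_range, Set.mem_Iio]
      omega
  rw [h1, Finset.card_product, h2, Finset.card_powerset, Finset.card_compl, Fintype.card_fin]
  have h3 : H.card ≤ K := by
    have := Finset.card_le_univ H
    rwa [Fintype.card_fin] at this
  have h4 : 2 ^ K = 2 ^ H.card * 2 ^ (K - H.card) := by
    rw [← pow_add, Nat.add_sub_cancel' h3]
  rw [h4]
  ring

variable {ι : Type} [Fintype ι] [DecidableEq ι] {Γ : Type} [Fintype Γ]

/-- the coordinate `j` may be resampled -/
theorem resample (j : ι) (h : (ι → Γ) → ℕ) :
    ∑ c, ∑ a, h (Function.update c j a) = Fintype.card Γ * ∑ c, h c := by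
  let φ : (ι → Γ) × Γ → (ι → Γ) × Γ := fun p => (Function.update p.1 j p.2, p.1 j)
  have hφ : Function.Involutive φ := by
    rintro ⟨c, a⟩
    simp only [φ]
    refine Prod.ext ?_ ?_
    · funext i
      by_cases hi : i = j
      · subst hi
        simp
      · simp [Function.update_of_ne hi]
    · simp
  have e1 : ∑ c, ∑ a, h (Function.update c j a) = ∑ p : (ι → Γ) × Γ, h (φ p).1 := by
    rw [Fintype.sum_prod_type]
  have e3 : ∑ p : (ι → Γ) × Γ, h (φ p).1 = ∑ p : (ι → Γ) × Γ, h p.1 :=
    Equiv.sum_comp (hφ.toPerm φ) fun p => h p.1
  rw [e1, e3, Fintype.sum_prod_type]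
  simp only [Finset.sum_const, Finset.card_univ, smul_eq_mul]
  rw [Finset.mul_sum]

/-- the game of a group -/
theorem group {K : ℕ} (k j : ℕ) (H : ι → Finset (Fin K)) (hH : ∀ i, (H i).card = k)
    (f : ι → (ι → Fin K → Bool) → Fin K) (hf : ∀ i x a, f i (Function.update x i a) = f i x) :
    k * (univ.filter fun x : ι → Fin K → Bool => ∀ i, f i x ∈ H i ∧ x i (f i x) = true).card ≤
      j * (2 ^ K) ^ Fintype.card ι +
        k * ∏ i, (univ.filter fun z : Fin K → Bool => ¬ blk (H i) z ≤ j).card := by
  classical
  set W := univ.filter fun x : ι → Fin K → Bool => ∀ i, f i x ∈ H i ∧ x i (f i x) = true with hW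
  set S : (ι → Fin K → Bool) → Finset ι := fun x => univ.filter fun i => blk (H i) (x i) ≤ j
    with hS
  have hsplit : W.card ≤ (W.filter fun x => S x ≠ ∅).card +
      (univ.filter fun x : ι → Fin K → Bool => S x = ∅).card := by
    rw [← Finset.card_filter_add_card_filter_not (s := W) (fun x => S x ≠ ∅)]
    refine Nat.add_le_add_left (Finset.card_le_card ?_) _
    intro x hx
    rw [Finset.mem_filter] at hx ⊢
    exact ⟨Finset.mem_univ _, not_not.1 hx.2⟩
  have hempty : (univ.filter fun x : ι → Fin K → Bool => S x = ∅).card =
      ∏ i, (univ.filter fun z : Fin K → Bool => ¬ blk (H i) z ≤ j).card := by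
    rw [← Fintype.card_piFinset]
    congr 1
    ext x
    simp only [hS, Finset.mem_filter, Finset.mem_univ, true_and, Fintype.mem_piFinset,
      Finset.filter_eq_empty_iff]
    constructor
    · intro h i
      exact h trivial
    · intro h i _
      exact h i
  -- one class
  have hone : ∀ T : Finset ι, T ≠ ∅ →
      k * (W.filter fun x => S x = T).card ≤
        j * (univ.filter fun x : ι → Fin K → Bool => S x = T).card := by
    intro T hT
    obtain ⟨i, hi⟩ := Finset.nonempty_iff_ne_empty.2 hT
    have hle : (W.filter fun x => S x = T).card ≤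
        (univ.filter fun x : ι → Fin K → Bool =>
          S x = T ∧ f i x ∈ H i ∧ x i (f i x) = true).card := by
      refine Finset.card_le_card ?_
      intro x hx
      rw [Finset.mem_filter, hW, Finset.mem_filter] at hx
      rw [Finset.mem_filter]
      exact ⟨Finset.mem_univ _, hx.2, hx.1.2 i⟩
    refine (Nat.mul_le_mul_left k hle).trans ?_
    have hpos : 0 < Fintype.card (Fin K → Bool) := Fintype.card_pos
    refine Nat.le_of_mul_le_mul_left ?_ hpos
    have r1 := resample i (fun x : ι → Fin K → Bool =>
      if S x = T ∧ f i x ∈ H i ∧ x i (f i x) = true then 1 else 0)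
    have r2 := resample i (fun x : ι → Fin K → Bool => if S x = T then 1 else 0)
    rw [← Finset.card_filter] at r1 r2
    rw [mul_left_comm, ← r1, mul_left_comm _ j, ← r2, Finset.mul_sum, Finset.mul_sum]
    refine Finset.sum_le_sum fun x _ => ?_
    simp only [hf, Function.update_self]
    rw [← Finset.card_filter, ← Finset.card_filter]
    -- the part of the event on the other players
    by_cases hx : ∀ i', i' ≠ i → (blk (H i') (x i') ≤ j ↔ i' ∈ T)
    · have hST : ∀ a, S (Function.update x i a) = T ↔ blk (H i) a ≤ j := by
        intro a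
        constructor
        · intro h
          rw [← h] at hi
          simpa [hS] using hi
        · intro h
          ext i'
          simp only [hS, Finset.mem_filter, Finset.mem_univ, true_and]
          by_cases h' : i' = i
          · subst h'
            simp [h, hi]
          · rw [Function.update_of_ne h']
            exact hx i' h'
      simp only [hST]
      by_cases hm : f i x ∈ H i
      · have h3 := share (H i) j hm
        rw [hH i] at h3
        simpa [hm] using h3
      · simp [hm]
    · have hST : ∀ a, S (Function.update x i a) ≠ T := by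
        intro a h
        apply hx
        intro i' h'
        rw [← h]
        simp [hS, Function.update_of_ne h']
      simp [hST]
  have hsum : k * (W.filter fun x => S x ≠ ∅).card ≤ j * (2 ^ K) ^ Fintype.card ι := by
    have h1 : (W.filter fun x => S x ≠ ∅).card =
        ∑ T ∈ univ.erase (∅ : Finset ι), (W.filter fun x => S x = T).card := by
      rw [Finset.card_eq_sum_card_fiberwise (f := S) (t := univ.erase (∅ : Finset ι))]
      · refine Finset.sum_congr rfl fun T hT => ?_
        congr 1
        ext x
        simp only [Finset.mem_filter]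
        constructor
        · rintro ⟨⟨h, _⟩, h'⟩
          exact ⟨h, h'⟩
        · rintro ⟨h, h'⟩
          refine ⟨⟨h, ?_⟩, h'⟩
          rw [h']
          exact Finset.ne_of_mem_erase hT
      · intro x hx
        simp only [Finset.coe_filter, Set.mem_ofPred_eq] at hx
        simpa using hx.2
    have h2 : ∑ T ∈ univ.erase (∅ : Finset ι),
        (univ.filter fun x : ι → Fin K → Bool => S x = T).card ≤ (2 ^ K) ^ Fintype.card ι := by
      have h3 : ∑ T : Finset ι,
          (univ.filter fun x : ι → Fin K → Bool => S x = T).card = (2 ^ K) ^ Fintype.card ι := by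
        rw [← Finset.card_eq_sum_card_fiberwise (f := S) (s := univ) (t := univ)
          (fun _ _ => Finset.mem_coe.2 (Finset.mem_univ _))]
        rw [Finset.card_univ, Fintype.card_fun, Fintype.card_fun, Fintype.card_bool,
          Fintype.card_fin]
      rw [← h3]
      exact Finset.sum_le_sum_of_subset (Finset.erase_subset _ _)
    rw [h1, Finset.mul_sum]
    calc ∑ T ∈ univ.erase (∅ : Finset ι), k * (W.filter fun x => S x = T).card
        ≤ ∑ T ∈ univ.erase (∅ : Finset ι),
          j * (univ.filter fun x : ι → Fin K → Bool => S x = T).card :=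
          Finset.sum_le_sum fun T hT => hone T (Finset.ne_of_mem_erase hT)
      _ = j * ∑ T ∈ univ.erase (∅ : Finset ι),
          (univ.filter fun x : ι → Fin K → Bool => S x = T).card := by rw [Finset.mul_sum]
      _ ≤ _ := Nat.mul_le_mul_left j h2
  calc k * W.card ≤ k * ((W.filter fun x => S x ≠ ∅).card +
      (univ.filter fun x : ι → Fin K → Bool => S x = ∅).card) := Nat.mul_le_mul_left k hsplit
    _ = k * (W.filter fun x => S x ≠ ∅).card +
      k * (univ.filter fun x : ι → Fin K → Bool => S x = ∅).card := by ring
    _ ≤ _ := by rw [hempty]; exact Nat.add_le_add_right hsum _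

end Pool.Agent.ShortStacks
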